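import Pool.Agent.Work.MP_db9399_px.Interface

/-!
# MP_db9399, THEOREM EXP, block EVF of PARTX (helper50)
-/

set_option autoImplicit false

namespace Pool.Agent.Work.MP_db9399_px.helper50

open Finset Classical
open Pool.Agent.Work.MP_db9399_all (nb pr DepOnI PackI)
open Pool.Agent.Work.MP_db9399_px

universe u

section gen
variable {Ω : Type u} [Fintype Ω]

lemma avg_add (F H : Ω → ℝ) : avg (fun ω => F ω + H ω) = avg F + avg H := by
  unfold avg; rw [Finset.sum_add_distrib, add_div]

lemma avg_sub (F H : Ω → ℝ) : avg (fun ω => F ω - H ω) = avg F - avg H := by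
  unfold avg; rw [Finset.sum_sub_distrib, sub_div]

lemma avg_mul (c : ℝ) (F : Ω → ℝ) : avg (fun ω => c * F ω) = c * avg F := by
  unfold avg; rw [← Finset.mul_sum, mul_div_assoc]

lemma avg_sum {ι : Type u} (S : Finset ι) (F : ι → Ω → ℝ) :
    avg (fun ω => ∑ i ∈ S, F i ω) = ∑ i ∈ S, avg (F i) := by
  unfold avg; rw [Finset.sum_comm, Finset.sum_div]

lemma avg_ind (E : Ω → Prop) [DecidablePred E] :
    avg (fun ω => if E ω then (1 : ℝ) else 0) = pr E := by
  unfold avg pr; rw [Finset.sum_boole]; congr!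

lemma pr_mono {E E' : Ω → Prop} (h : ∀ ω, E ω → E' ω) : pr E ≤ pr E' := by
  unfold pr
  apply div_le_div_of_nonneg_right _ (by positivity)
  exact_mod_cast Finset.card_le_card (fun ω hω => by
    simp only [mem_filter, mem_univ, true_and] at hω ⊢; exact h ω hω)

lemma pr_or (E E' : Ω → Prop) : pr (fun ω => E ω ∨ E' ω) ≤ pr E + pr E' := by
  unfold pr
  rw [← add_div]
  apply div_le_div_of_nonneg_right _ (by positivity)
  refine le_trans (Nat.cast_le.mpr (Finset.card_le_card
    (t := univ.filter E ∪ univ.filter E') ?_)) ?_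
  · intro ω hω
    simpa using hω
  · exact_mod_cast Finset.card_union_le _ _

lemma pr_nonneg (E : Ω → Prop) : 0 ≤ pr E := by unfold pr; positivity

lemma pr_le_one (E : Ω → Prop) : pr E ≤ 1 := by
  unfold pr
  rcases Nat.eq_zero_or_pos (Fintype.card Ω) with h | h
  · rw [h]; simp
  · rw [div_le_one (by exact_mod_cast h)]
    exact_mod_cast (Finset.card_le_univ _)

end gen

section main
variable {V : Type u} [Fintype V] {M : ℕ} (blk : V → V) (pos : V → Fin M)

noncomputable def xx (P : Finset (Fin M)) (v : V) (f : V → Fin (M.factorial)) : ℝ :=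
  if atm M blk pos f v ∈ P then 1 else 0

noncomputable def F1 (G : SimpleGraph V) (τ : ℝ) (P Q : Finset (Fin M)) (A B : Finset V)
    (f : V → Fin (M.factorial)) : ℝ :=
  (∑ a ∈ A, ∑ w ∈ nb G a \ B, xx blk pos P a f * xx blk pos Q w f) +
    τ * ((∑ b ∈ B, xx blk pos Q b f) - ∑ a ∈ A, xx blk pos P a f)

lemma card_cc (P : Finset (Fin M)) (A : Finset V) (f : V → Fin (M.factorial)) :
    ((A ∩ cc M blk pos f P).card : ℝ) = ∑ a ∈ A, xx blk pos P a f := by
  unfold xx
  rw [Finset.sum_boole]
  congr 2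
  ext v
  simp [cc]

lemma ff_eq (G : SimpleGraph V) (τ : ℝ) (P Q : Finset (Fin M)) (A B : Finset V)
    (f : V → Fin (M.factorial)) :
    ff G τ (cc M blk pos f Q) (A ∩ cc M blk pos f P) (B ∩ cc M blk pos f Q) =
      F1 blk pos G τ P Q A B f := by
  unfold ff F1
  rw [card_cc, card_cc]
  congr 1
  unfold ee
  have h1 : A ∩ cc M blk pos f P = A.filter (fun v => atm M blk pos f v ∈ P) := by
    ext v; simp [cc]
  rw [h1, Finset.sum_filter]
  apply Finset.sum_congr rfl
  intro a _
  have h2 : nb G a ∩ (cc M blk pos f Q \ (B ∩ cc M blk pos f Q)) =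
      (nb G a \ B) ∩ cc M blk pos f Q := by
    ext v; simp only [mem_inter, mem_sdiff]; tauto
  rw [h2, card_cc, ← Finset.mul_sum]
  unfold xx
  split_ifs <;> simp

lemma xx_le (P : Finset (Fin M)) (v : V) (f : V → Fin (M.factorial)) :
    0 ≤ xx blk pos P v f ∧ xx blk pos P v f ≤ 1 := by
  unfold xx; split_ifs <;> simp

lemma xx_eq (P : Finset (Fin M)) (v : V) (f f' : V → Fin (M.factorial))
    (h : f (blk v) = f' (blk v)) : xx blk pos P v f = xx blk pos P v f' := by
  unfold xx atm; rw [h]

lemma xx_diff (P : Finset (Fin M)) (v y : V) (f f' : V → Fin (M.factorial))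
    (h : ∀ z, z ≠ y → f z = f' z) :
    |xx blk pos P v f - xx blk pos P v f'| ≤ if blk v = y then (1 : ℝ) else 0 := by
  split_ifs with h1
  · have := xx_le blk pos P v f
    have := xx_le blk pos P v f'
    rw [abs_le]; constructor <;> linarith
  · rw [xx_eq blk pos P v f f' (h _ h1)]; simp

lemma xx_diff2 (P Q : Finset (Fin M)) (v w y : V) (f f' : V → Fin (M.factorial))
    (h : ∀ z, z ≠ y → f z = f' z) :
    |xx blk pos P v f * xx blk pos Q w f - xx blk pos P v f' * xx blk pos Q w f'| ≤
      (if blk v = y then (1 : ℝ) else 0) + (if blk w = y then (1 : ℝ) else 0) := by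
  have e : xx blk pos P v f * xx blk pos Q w f - xx blk pos P v f' * xx blk pos Q w f' =
      (xx blk pos P v f - xx blk pos P v f') * xx blk pos Q w f +
        xx blk pos P v f' * (xx blk pos Q w f - xx blk pos Q w f') := by ring
  rw [e]
  refine (abs_add_le _ _).trans ?_
  rw [abs_mul, abs_mul]
  have h1 := xx_diff blk pos P v y f f' h
  have h2 := xx_diff blk pos Q w y f f' h
  have h3 := xx_le blk pos Q w f
  have h4 := xx_le blk pos P v f'
  have h5 : |xx blk pos Q w f| ≤ 1 := by rw [abs_le]; constructor <;> linarith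
  have h6 : |xx blk pos P v f'| ≤ 1 := by rw [abs_le]; constructor <;> linarith
  have := mul_le_mul h1 h5 (abs_nonneg _) (by split_ifs <;> norm_num)
  have := mul_le_mul h6 h2 (abs_nonneg _) (by norm_num)
  linarith

/-- number of vertices of `A` in the block `y` -/
noncomputable def na (A : Finset V) (y : V) : ℝ := ∑ a ∈ A, if blk a = y then (1 : ℝ) else 0

noncomputable def ne (G : SimpleGraph V) (A : Finset V) (y : V) : ℝ := ∑ a ∈ A, na blk (nb G a) y

lemma na_nonneg (A : Finset V) (y : V) : 0 ≤ na blk A y := by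
  unfold na; apply Finset.sum_nonneg; intro a _; split_ifs <;> norm_num

lemma na_mono {A B : Finset V} (h : A ⊆ B) (y : V) : na blk A y ≤ na blk B y := by
  unfold na
  apply Finset.sum_le_sum_of_subset_of_nonneg h
  intro a _ _; split_ifs <;> norm_num

lemma ne_nonneg (G : SimpleGraph V) (A : Finset V) (y : V) : 0 ≤ ne blk G A y := by
  unfold ne; apply Finset.sum_nonneg; intro a _; exact na_nonneg blk _ _

lemma na_le {pos : V → Fin M} (hb : Blocks M blk pos) (A : Finset V) (y : V) :
    na blk A y ≤ M := by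
  unfold na
  rw [Finset.sum_boole]
  have : (A.filter (fun a => blk a = y)).card ≤ (univ : Finset (Fin M)).card := by
    apply Finset.card_le_card_of_injOn pos (fun _ _ => by simp)
    intro v hv w hw h
    simp only [coe_filter, Set.mem_setOf_eq] at hv hw
    exact hb v w (hv.2.trans hw.2.symm) h
  simp at this
  exact_mod_cast this

lemma na_sum (A : Finset V) : ∑ y, na blk A y = A.card := by
  unfold na
  rw [Finset.sum_comm]
  simp

lemma ne_sum (G : SimpleGraph V) (d : ℕ) (hd : ∀ v, (nb G v).card ≤ d) (A : Finset V) :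
    ∑ y, ne blk G A y ≤ d * A.card := by
  unfold ne
  rw [Finset.sum_comm]
  simp only [na_sum]
  calc ∑ x ∈ A, ((nb G x).card : ℝ) ≤ ∑ x ∈ A, (d : ℝ) :=
        Finset.sum_le_sum (fun x _ => by exact_mod_cast hd x)
    _ = d * A.card := by rw [Finset.sum_const, nsmul_eq_mul]; ring

lemma ne_le {pos : V → Fin M} (hb : Blocks M blk pos) (G : SimpleGraph V) (d : ℕ)
    (hd : ∀ v, (nb G v).card ≤ d) (A : Finset V) (y : V) : ne blk G A y ≤ M * d := by
  have h1 : ne blk G A y ≤ ∑ w, (if blk w = y then (1 : ℝ) else 0) * ((nb G w).card : ℝ) := by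
    unfold ne na
    have : ∀ a ∈ A, (∑ w ∈ nb G a, if blk w = y then (1 : ℝ) else 0) =
        ∑ w, if G.Adj a w then (if blk w = y then (1 : ℝ) else 0) else 0 := by
      intro a _
      unfold nb
      rw [Finset.sum_filter]
    rw [Finset.sum_congr rfl this, Finset.sum_comm]
    apply Finset.sum_le_sum
    intro w _
    split_ifs with h
    · rw [one_mul]
      rw [Finset.sum_boole]
      have : (A.filter (fun a => G.Adj a w)).card ≤ (nb G w).card := by
        apply Finset.card_le_card
        intro a ha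
        simp only [mem_filter, nb, mem_univ, true_and] at ha ⊢
        exact ha.2.symm
      exact_mod_cast this
    · simp
  refine h1.trans ?_
  calc ∑ w, (if blk w = y then (1 : ℝ) else 0) * ((nb G w).card : ℝ)
      ≤ ∑ w, (if blk w = y then (1 : ℝ) else 0) * d := by
        apply Finset.sum_le_sum
        intro w _
        apply mul_le_mul_of_nonneg_left
        · exact_mod_cast hd w
        · split_ifs <;> norm_num
    _ = na blk univ y * d := by rw [← Finset.sum_mul]; rfl
    _ ≤ M * d := mul_le_mul_of_nonneg_right (na_le blk hb _ _) (by positivity)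

/-- the influences -/
noncomputable def cy (G : SimpleGraph V) (d : ℕ) (A B : Finset V) (y : V) : ℝ :=
  3 / 2 * d * na blk A y + 1 / 2 * d * na blk B y + ne blk G A y

lemma infl (G : SimpleGraph V) (d : ℕ) (hd : ∀ v, (nb G v).card ≤ d) (τ : ℝ) (hτ : 0 ≤ τ)
    (hτd : τ ≤ d / 2) (P Q : Finset (Fin M)) (A B : Finset V) (y : V)
    (f f' : V → Fin (M.factorial)) (h : ∀ z, z ≠ y → f z = f' z) :
    |F1 blk pos G τ P Q A B f - F1 blk pos G τ P Q A B f'| ≤ cy blk G d A B y := by
  have e : F1 blk pos G τ P Q A B f - F1 blk pos G τ P Q A B f' =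
      (∑ a ∈ A, ∑ w ∈ nb G a \ B, (xx blk pos P a f * xx blk pos Q w f -
        xx blk pos P a f' * xx blk pos Q w f')) +
      τ * ((∑ b ∈ B, (xx blk pos Q b f - xx blk pos Q b f')) -
        ∑ a ∈ A, (xx blk pos P a f - xx blk pos P a f')) := by
    unfold F1
    simp only [Finset.sum_sub_distrib]
    ring
  rw [e]
  have h1 : |∑ a ∈ A, ∑ w ∈ nb G a \ B, (xx blk pos P a f * xx blk pos Q w f -
        xx blk pos P a f' * xx blk pos Q w f')| ≤ d * na blk A y + ne blk G A y := by
    calc _ ≤ ∑ a ∈ A, |∑ w ∈ nb G a \ B, (xx blk pos P a f * xx blk pos Q w f -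
        xx blk pos P a f' * xx blk pos Q w f')| := Finset.abs_sum_le_sum_abs _ _
      _ ≤ ∑ a ∈ A, ∑ w ∈ nb G a, ((if blk a = y then (1 : ℝ) else 0) +
          (if blk w = y then (1 : ℝ) else 0)) := by
        apply Finset.sum_le_sum
        intro a _
        refine (Finset.abs_sum_le_sum_abs _ _).trans ?_
        refine (Finset.sum_le_sum (fun w _ => xx_diff2 blk pos P Q a w y f f' h)).trans ?_
        apply Finset.sum_le_sum_of_subset_of_nonneg Finset.sdiff_subset
        intro w _ _
        split_ifs <;> norm_num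
      _ = ∑ a ∈ A, (((nb G a).card : ℝ) * (if blk a = y then (1 : ℝ) else 0) +
          na blk (nb G a) y) := by
        apply Finset.sum_congr rfl
        intro a _
        rw [Finset.sum_add_distrib, Finset.sum_const, nsmul_eq_mul]
        rfl
      _ ≤ ∑ a ∈ A, ((d : ℝ) * (if blk a = y then (1 : ℝ) else 0) +
          na blk (nb G a) y) := by
        apply Finset.sum_le_sum
        intro a _
        have : ((nb G a).card : ℝ) ≤ d := by exact_mod_cast hd a
        have := mul_le_mul_of_nonneg_right this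
          (show (0 : ℝ) ≤ (if blk a = y then (1 : ℝ) else 0) by split_ifs <;> norm_num)
        linarith
      _ = d * na blk A y + ne blk G A y := by
        rw [Finset.sum_add_distrib, ← Finset.mul_sum]; rfl
  have h2 : |∑ b ∈ B, (xx blk pos Q b f - xx blk pos Q b f')| ≤ na blk B y :=
    (Finset.abs_sum_le_sum_abs _ _).trans
      (Finset.sum_le_sum (fun w _ => xx_diff blk pos Q w y f f' h))
  have h3 : |∑ a ∈ A, (xx blk pos P a f - xx blk pos P a f')| ≤ na blk A y :=
    (Finset.abs_sum_le_sum_abs _ _).trans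
      (Finset.sum_le_sum (fun w _ => xx_diff blk pos P w y f f' h))
  refine (abs_add_le _ _).trans ?_
  rw [abs_mul, abs_of_nonneg hτ]
  have h4 := (abs_sub (∑ b ∈ B, (xx blk pos Q b f - xx blk pos Q b f'))
    (∑ a ∈ A, (xx blk pos P a f - xx blk pos P a f')))
  have h5 := mul_le_mul hτd (h4.trans (add_le_add h2 h3)) (abs_nonneg _) (by positivity)
  unfold cy
  nlinarith [h1, h5]

lemma cy_sq {pos : V → Fin M} (hb : Blocks M blk pos) (G : SimpleGraph V) (d : ℕ)
    (hd : ∀ v, (nb G v).card ≤ d) (A B : Finset V) :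
    ∑ y, cy blk G d A B y ^ 2 ≤ 10 * M * d ^ 2 * ((A.card : ℝ) + B.card) := by
  have h1 : ∀ y, cy blk G d A B y ^ 2 ≤ 27 / 4 * d ^ 2 * M * na blk A y +
      3 / 4 * d ^ 2 * M * na blk B y + 3 * (M * d) * ne blk G A y := by
    intro y
    have a0 := na_nonneg blk A y
    have b0 := na_nonneg blk B y
    have e0 := ne_nonneg blk G A y
    have a1 := na_le blk hb A y
    have b1 := na_le blk hb B y
    have e1 := ne_le blk hb G d hd A y
    unfold cy
    have d0 : (0 : ℝ) ≤ d := by positivity
    have k1 : na blk A y ^ 2 ≤ M * na blk A y := by nlinarith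
    have k2 : na blk B y ^ 2 ≤ M * na blk B y := by nlinarith
    have k3 : ne blk G A y ^ 2 ≤ M * d * ne blk G A y := by nlinarith
    have k4 : (d : ℝ) ^ 2 * na blk A y ^ 2 ≤ d ^ 2 * (M * na blk A y) :=
      mul_le_mul_of_nonneg_left k1 (by positivity)
    have k5 : (d : ℝ) ^ 2 * na blk B y ^ 2 ≤ d ^ 2 * (M * na blk B y) :=
      mul_le_mul_of_nonneg_left k2 (by positivity)
    nlinarith [sq_nonneg (3 / 2 * d * na blk A y - 1 / 2 * d * na blk B y),
      sq_nonneg (3 / 2 * d * na blk A y - ne blk G A y),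
      sq_nonneg (1 / 2 * d * na blk B y - ne blk G A y)]
  refine (Finset.sum_le_sum (fun y _ => h1 y)).trans ?_
  rw [Finset.sum_add_distrib, Finset.sum_add_distrib, ← Finset.mul_sum, ← Finset.mul_sum,
    ← Finset.mul_sum, na_sum, na_sum]
  have h2 := ne_sum blk G d hd A
  have h3 := mul_le_mul_of_nonneg_left h2 (show (0 : ℝ) ≤ 3 * (M * d) by positivity)
  have h4 : (0 : ℝ) ≤ M * d ^ 2 * A.card := by positivity
  have h5 : (0 : ℝ) ≤ M * d ^ 2 * B.card := by positivity
  nlinarith

lemma avg_xx (hUNI : Stmt_UNI.{u}) (hM : 0 < M) (hb : Blocks M blk pos) (P : Finset (Fin M))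
    (v : V) : avg (xx blk pos P v) = (P.card : ℝ) / M := by
  have := (hUNI M blk pos P P hM hb).1 v
  rw [← this]
  exact avg_ind _

lemma avg_xx2 (hUNI : Stmt_UNI.{u}) (hM : 0 < M) (hb : Blocks M blk pos) (P Q : Finset (Fin M))
    (hPQ : P.card = Q.card) (hP : P.card ≤ M) (v w : V) :
    |avg (fun f => xx blk pos P v f * xx blk pos Q w f) - ((P.card : ℝ) / M) ^ 2| ≤
      if blk w = blk v then (1 : ℝ) else 0 := by
  have e : (fun f => xx blk pos P v f * xx blk pos Q w f) =
      fun f => if (atm M blk pos f v ∈ P ∧ atm M blk pos f w ∈ Q) then (1 : ℝ) else 0 := by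
    funext f
    unfold xx
    by_cases h1 : atm M blk pos f v ∈ P <;> by_cases h2 : atm M blk pos f w ∈ Q <;> simp [h1, h2]
  rw [e, avg_ind]
  split_ifs with h
  · have h1 := pr_nonneg (fun f : V → Fin (M.factorial) =>
      atm M blk pos f v ∈ P ∧ atm M blk pos f w ∈ Q)
    have h2 := pr_le_one (fun f : V → Fin (M.factorial) =>
      atm M blk pos f v ∈ P ∧ atm M blk pos f w ∈ Q)
    have h3 : (P.card : ℝ) / M ≤ 1 := by
      rw [div_le_one (by exact_mod_cast hM)]; exact_mod_cast hP
    have h4 : (0 : ℝ) ≤ (P.card : ℝ) / M := by positivity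
    rw [abs_le]; constructor <;> nlinarith
  · have := (hUNI M blk pos P Q hM hb).2 v w (fun hh => h hh.symm)
    rw [this, ← hPQ]
    rw [show (P.card : ℝ) / M * ((P.card : ℝ) / M) - ((P.card : ℝ) / M) ^ 2 = 0 by ring]
    simp

lemma avg_F1 (hUNI : Stmt_UNI.{u}) (hM : 0 < M) (hb : Blocks M blk pos) (G : SimpleGraph V)
    (d : ℕ) (P Q : Finset (Fin M)) (hPQ : P.card = Q.card) (hP : P.card ≤ M) (A B : Finset V) :
    |avg (F1 blk pos G ((P.card : ℝ) / M * d / 2) P Q A B) -
      ((P.card : ℝ) / M) ^ 2 * ff G ((d : ℝ) / 2) univ A B| ≤ M * A.card := by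
  have e1 : avg (F1 blk pos G ((P.card : ℝ) / M * d / 2) P Q A B) =
      (∑ a ∈ A, ∑ w ∈ nb G a \ B, avg (fun f => xx blk pos P a f * xx blk pos Q w f)) +
      (P.card : ℝ) / M * d / 2 * ((P.card : ℝ) / M * B.card - (P.card : ℝ) / M * A.card) := by
    unfold F1
    rw [avg_add, avg_mul, avg_sub, avg_sum, avg_sum, avg_sum]
    congr 1
    · apply Finset.sum_congr rfl
      intro a _
      rw [avg_sum]
    · congr 1
      congr 1
      · rw [Finset.sum_congr rfl (fun b _ => avg_xx blk pos hUNI hM hb Q b), Finset.sum_const,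
          nsmul_eq_mul, ← hPQ]
        ring
      · rw [Finset.sum_congr rfl (fun b _ => avg_xx blk pos hUNI hM hb P b), Finset.sum_const,
          nsmul_eq_mul]
        ring
  have e2 : ff G ((d : ℝ) / 2) univ A B = (∑ a ∈ A, ∑ w ∈ nb G a \ B, (1 : ℝ)) +
      (d : ℝ) / 2 * ((B.card : ℝ) - A.card) := by
    unfold ff ee
    congr 1
    apply Finset.sum_congr rfl
    intro a _
    rw [Finset.sum_const, nsmul_eq_mul, mul_one]
    congr 2
    ext v; simp
  have e3 : avg (F1 blk pos G ((P.card : ℝ) / M * d / 2) P Q A B) -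
      ((P.card : ℝ) / M) ^ 2 * ff G ((d : ℝ) / 2) univ A B =
      ∑ a ∈ A, ∑ w ∈ nb G a \ B, (avg (fun f => xx blk pos P a f * xx blk pos Q w f) -
        ((P.card : ℝ) / M) ^ 2) := by
    rw [e1, e2]
    simp only [Finset.sum_sub_distrib]
    rw [mul_add, Finset.mul_sum]
    have : ∀ a ∈ A, ((P.card : ℝ) / M) ^ 2 * ∑ w ∈ nb G a \ B, (1 : ℝ) =
        ∑ w ∈ nb G a \ B, ((P.card : ℝ) / M) ^ 2 := by
      intro a _
      rw [Finset.mul_sum]; simp
    rw [Finset.sum_congr rfl this]
    ring
  rw [e3]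
  calc _ ≤ ∑ a ∈ A, |∑ w ∈ nb G a \ B, (avg (fun f => xx blk pos P a f * xx blk pos Q w f) -
        ((P.card : ℝ) / M) ^ 2)| := Finset.abs_sum_le_sum_abs _ _
    _ ≤ ∑ a ∈ A, (M : ℝ) := by
      apply Finset.sum_le_sum
      intro a _
      refine (Finset.abs_sum_le_sum_abs _ _).trans ?_
      refine (Finset.sum_le_sum (fun w _ => avg_xx2 blk pos hUNI hM hb P Q hPQ hP a w)).trans ?_
      exact na_le blk hb _ _
    _ = M * A.card := by rw [Finset.sum_const, nsmul_eq_mul]; ring

end main

theorem stmt_EVF (hPBM : Stmt_PBM.{u}) (hUNI : Stmt_UNI.{u}) (hLIN : Stmt_LIN.{u}) :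
    Stmt_EVF.{u} := by
  intro M σ hM hσ hσ1
  have hM' : (1 : ℝ) ≤ M := by exact_mod_cast hM
  obtain ⟨d0, hd0⟩ := exists_nat_ge (2 * (M : ℝ) ^ 3 / σ + 1)
  have hd01 : (1 : ℝ) ≤ d0 := by
    have : 0 ≤ 2 * (M : ℝ) ^ 3 / σ := by positivity
    linarith
  refine ⟨d0, by exact_mod_cast hd01, ?_⟩
  intro V _ G d blk pos P Q A B hd hdeg hb hPQ hPne
  have hdR : 2 * (M : ℝ) ^ 3 / σ ≤ d := by
    have : (d0 : ℝ) ≤ d := by exact_mod_cast hd
    linarith
  have hd1 : (1 : ℝ) ≤ d := by
    have : (d0 : ℝ) ≤ d := by exact_mod_cast hd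
    linarith
  have hPM : P.card ≤ M := by
    simpa using Finset.card_le_univ P
  have hp1 : (1 : ℝ) / M ≤ (P.card : ℝ) / M := by
    apply div_le_div_of_nonneg_right _ (by positivity)
    exact_mod_cast hPne.card_pos
  have hple : (P.card : ℝ) / M ≤ 1 := by
    rw [div_le_one (by linarith)]; exact_mod_cast hPM
  obtain ⟨p, hp⟩ : ∃ p : ℝ, p = (P.card : ℝ) / M := ⟨_, rfl⟩
  rw [← hp] at hp1 hple
  have hppos : 0 < p := lt_of_lt_of_le (by positivity) hp1
  have hMp : 1 ≤ M * p := by
    have := mul_le_mul_of_nonneg_left hp1 (show (0 : ℝ) ≤ M by linarith)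
    rwa [mul_one_div_cancel (by linarith)] at this
  obtain ⟨N, hN⟩ : ∃ N : ℝ, N = (A.card : ℝ) + B.card := ⟨_, rfl⟩
  have hN0 : 0 ≤ N := by rw [hN]; positivity
  constructor
  · rw [← hN]
    rcases hN0.eq_or_lt with hN1 | hNpos
    · rw [← hN1]
      refine (pr_le_one _).trans ?_
      simp
    -- the three parts
    have hQp : (Q.card : ℝ) / M = p := by rw [hp, hPQ]
    have p1 : pr (fun f => p ^ 2 * d * N * (σ / 2) ≤
        |F1 blk pos G (p * d / 2) P Q A B f - avg (F1 blk pos G (p * d / 2) P Q A B)|) ≤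
        2 * Real.exp (-(σ ^ 2 / (200 * (M : ℝ) ^ 5) * N)) := by
      have h := hPBM (M.factorial) (F1 blk pos G (p * d / 2) P Q A B) (cy blk G d A B)
        (10 * M * d ^ 2 * N) (p ^ 2 * d * N * (σ / 2)) (Nat.factorial_pos _)
        (fun y f f' hff => infl blk pos G d hdeg (p * d / 2) (by positivity)
          (by nlinarith) P Q A B y f f' hff)
        (by rw [hN]; exact cy_sq blk hb G d hdeg A B) (by positivity) (by positivity)
      refine h.trans ?_
      apply mul_le_mul_of_nonneg_left _ (by norm_num)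
      apply Real.exp_le_exp.mpr
      have e : -(p ^ 2 * d * N * (σ / 2)) ^ 2 / (2 * (10 * M * d ^ 2 * N)) =
          -(σ ^ 2 * N * (p ^ 4 / (80 * M))) := by
        field_simp
        ring
      rw [e]
      apply neg_le_neg
      have e2 : σ ^ 2 / (200 * (M : ℝ) ^ 5) * N = σ ^ 2 * N * (1 / (200 * M ^ 5)) := by ring
      rw [e2]
      apply mul_le_mul_of_nonneg_left _ (by positivity)
      rw [div_le_div_iff₀ (by positivity) (by positivity)]
      have : (1 : ℝ) ≤ (M * p) ^ 4 := one_le_pow₀ hMp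
      nlinarith [this, mul_pow (M : ℝ) p 4]
    have psz : ∀ (P' : Finset (Fin M)) (X : Finset V), (P'.card : ℝ) / M = p →
        (X.card : ℝ) ≤ N →
        pr (fun f => ¬ (|((X ∩ cc M blk pos f P').card : ℝ) - p * X.card| ≤ σ * p * N)) ≤
        2 * Real.exp (-(σ ^ 2 / (200 * (M : ℝ) ^ 5) * N)) := by
      intro P' X hP' hXN
      rcases X.eq_empty_or_nonempty with hX | hX
      · have : pr (fun f : V → Fin (M.factorial) =>
            ¬ (|((X ∩ cc M blk pos f P').card : ℝ) - p * X.card| ≤ σ * p * N)) ≤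
            pr (fun _ : V → Fin (M.factorial) => False) := by
          apply pr_mono
          intro f hf
          apply hf
          rw [hX]
          simp
          positivity
        refine this.trans ?_
        have h0 : pr (fun _ : V → Fin (M.factorial) => False) = 0 := by
          unfold pr; simp
        rw [h0]; positivity
      · have h := hLIN M blk pos P' X (σ * p * N) hM hb hX (by positivity)
        have h1 : pr (fun f : V → Fin (M.factorial) =>
            ¬ (|((X ∩ cc M blk pos f P').card : ℝ) - p * X.card| ≤ σ * p * N)) ≤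
            pr (fun f : V → Fin (M.factorial) => σ * p * N ≤
              |((X ∩ cc M blk pos f P').card : ℝ) - (P'.card : ℝ) / M * X.card|) := by
          apply pr_mono
          intro f hf
          rw [hP']
          exact (not_le.mp hf).le
        refine (h1.trans h).trans ?_
        apply mul_le_mul_of_nonneg_left _ (by norm_num)
        apply Real.exp_le_exp.mpr
        have hXpos : (0 : ℝ) < X.card := by exact_mod_cast hX.card_pos
        rw [neg_div]
        apply neg_le_neg
        rw [le_div_iff₀ (by positivity)]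
        have hMp2 : (1 : ℝ) ≤ (M * p) ^ 2 := one_le_pow₀ hMp
        have e1 : σ ^ 2 / (200 * (M : ℝ) ^ 5) * N * (2 * (M * X.card)) =
            σ ^ 2 * N * X.card * (1 / (100 * M ^ 4)) := by field_simp; ring
        rw [e1]
        have e2 : (σ * p * N) ^ 2 = σ ^ 2 * N * N * p ^ 2 := by ring
        rw [e2]
        have e3 : 1 / (100 * (M : ℝ) ^ 4) ≤ p ^ 2 := by
          rw [div_le_iff₀ (by positivity)]
          have : (1 : ℝ) ≤ (M : ℝ) ^ 2 := one_le_pow₀ hM'
          nlinarith [mul_pow (M : ℝ) p 2]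
        apply mul_le_mul _ e3 (by positivity) (by positivity)
        apply mul_le_mul_of_nonneg_left hXN (by positivity)
    have p2 : pr (fun f => ¬ (|((A ∩ cc M blk pos f P).card : ℝ) - p * A.card| ≤ σ * p * N)) ≤
        2 * Real.exp (-(σ ^ 2 / (200 * (M : ℝ) ^ 5) * N)) :=
      psz P A hp.symm (by rw [hN]; have : (0 : ℝ) ≤ B.card := by positivity
                          linarith)
    have p3 : pr (fun f => ¬ (|((B ∩ cc M blk pos f Q).card : ℝ) - p * B.card| ≤ σ * p * N)) ≤
        2 * Real.exp (-(σ ^ 2 / (200 * (M : ℝ) ^ 5) * N)) :=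
      psz Q B (by rw [← hPQ, hp]) (by rw [hN]; have : (0 : ℝ) ≤ A.card := by positivity
                                      linarith)
    have hsub : pr (fun f => ¬ GoodF G d M σ blk pos P Q A B f) ≤
        pr (fun f => (p ^ 2 * d * N * (σ / 2) ≤
          |F1 blk pos G (p * d / 2) P Q A B f - avg (F1 blk pos G (p * d / 2) P Q A B)|) ∨
          ((¬ (|((A ∩ cc M blk pos f P).card : ℝ) - p * A.card| ≤ σ * p * N)) ∨
          (¬ (|((B ∩ cc M blk pos f Q).card : ℝ) - p * B.card| ≤ σ * p * N)))) := by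
      apply pr_mono
      intro f hf
      by_contra hcon
      push Not at hcon
      apply hf
      unfold GoodF
      rw [← hp, ← hN]
      refine ⟨?_, hcon.2.1, hcon.2.2⟩
      rw [ff_eq]
      have h1 := hcon.1
      have h2 := avg_F1 blk pos hUNI hM hb G d P Q hPQ hPM A B
      rw [← hp] at h2
      have h3 : (M : ℝ) * A.card ≤ σ / 2 * p ^ 2 * d * N := by
        have h4 : 2 * (M : ℝ) ^ 3 ≤ σ * d := by
          rw [div_le_iff₀ hσ] at hdR; linarith
        have h5 : (1 : ℝ) ≤ (M * p) ^ 2 := one_le_pow₀ hMp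
        have h6 : (A.card : ℝ) ≤ N := by rw [hN]; have : (0 : ℝ) ≤ B.card := by positivity
                                         linarith
        have h7 : (M : ℝ) ≤ σ / 2 * p ^ 2 * d := by
          have : (M : ℝ) * 1 ≤ M * (M * p) ^ 2 := mul_le_mul_of_nonneg_left h5 (by positivity)
          have h8 : M * (M * p) ^ 2 = (2 * (M : ℝ) ^ 3) * (p ^ 2 / 2) := by ring
          have h9 := mul_le_mul_of_nonneg_right h4 (show (0 : ℝ) ≤ p ^ 2 / 2 by positivity)
          nlinarith
        have := mul_le_mul h7 h6 (by positivity) (by positivity)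
        linarith
      have h4 : |F1 blk pos G (p * d / 2) P Q A B f - p ^ 2 * ff G ((d : ℝ) / 2) univ A B| ≤
          |F1 blk pos G (p * d / 2) P Q A B f - avg (F1 blk pos G (p * d / 2) P Q A B)| +
          |avg (F1 blk pos G (p * d / 2) P Q A B) - p ^ 2 * ff G ((d : ℝ) / 2) univ A B| :=
        abs_sub_le _ _ _
      have e5 : σ * p ^ 2 * d * N = p ^ 2 * d * N * (σ / 2) + σ / 2 * p ^ 2 * d * N := by ring
      rw [e5]
      linarith
    refine hsub.trans ((pr_or _ _).trans ?_)
    have := pr_or (fun f : V → Fin (M.factorial) =>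
      (¬ (|((A ∩ cc M blk pos f P).card : ℝ) - p * A.card| ≤ σ * p * N)))
      (fun f => (¬ (|((B ∩ cc M blk pos f Q).card : ℝ) - p * B.card| ≤ σ * p * N)))
    linarith
  · intro f f' hff
    have key : ∀ v, (v ∈ A ∨ v ∈ B ∨ ∃ a ∈ A, v ∈ nb G a) → f (blk v) = f' (blk v) := by
      intro v hv
      apply hff
      apply Finset.mem_image_of_mem
      simp only [mem_union, mem_biUnion]
      tauto
    have hatm : ∀ v, (v ∈ A ∨ v ∈ B ∨ ∃ a ∈ A, v ∈ nb G a) →
        atm M blk pos f v = atm M blk pos f' v := by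
      intro v hv
      unfold atm
      rw [key v hv]
    have hA : A ∩ cc M blk pos f P = A ∩ cc M blk pos f' P := by
      ext v
      simp only [mem_inter, cc, mem_filter, mem_univ, true_and]
      constructor
      · rintro ⟨h1, h2⟩; exact ⟨h1, by rw [← hatm v (Or.inl h1)]; exact h2⟩
      · rintro ⟨h1, h2⟩; exact ⟨h1, by rw [hatm v (Or.inl h1)]; exact h2⟩
    have hB : B ∩ cc M blk pos f Q = B ∩ cc M blk pos f' Q := by
      ext v
      simp only [mem_inter, cc, mem_filter, mem_univ, true_and]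
      constructor
      · rintro ⟨h1, h2⟩; exact ⟨h1, by rw [← hatm v (Or.inr (Or.inl h1))]; exact h2⟩
      · rintro ⟨h1, h2⟩; exact ⟨h1, by rw [hatm v (Or.inr (Or.inl h1))]; exact h2⟩
    have hF : ∀ τ : ℝ, F1 blk pos G τ P Q A B f = F1 blk pos G τ P Q A B f' := by
      intro τ
      unfold F1
      congr 1
      · apply Finset.sum_congr rfl
        intro a ha
        apply Finset.sum_congr rfl
        intro w hw
        rw [xx_eq blk pos P a f f' (key a (Or.inl ha)), xx_eq blk pos Q w f f'
          (key w (Or.inr (Or.inr ⟨a, ha, (mem_sdiff.mp hw).1⟩)))]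
      · congr 1
        congr 1
        · apply Finset.sum_congr rfl
          intro b hb'
          rw [xx_eq blk pos Q b f f' (key b (Or.inr (Or.inl hb')))]
        · apply Finset.sum_congr rfl
          intro a ha
          rw [xx_eq blk pos P a f f' (key a (Or.inl ha))]
    unfold GoodF
    rw [ff_eq, ff_eq, hF, hA, hB]

end Pool.Agent.Work.MP_db9399_px.helper50
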