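import Pool.Agent.Work.MP_db9399_px.LInterface

/-!
# MP_db9399, THEOREM EXP, block LPKX of PARTX (helper50)
-/

set_option autoImplicit false

namespace Pool.Agent.Work.MP_db9399_px.helper50.LPKX

open Finset Classical
open Pool.Agent.Work.MP_db9399_all (nb pr DepOnI PackI)
open Pool.Agent.Work.MP_db9399_px

universe u

section
variable {V : Type u} [Fintype V]

lemma mem_nb {G : SimpleGraph V} {v w : V} : w ∈ nb G v ↔ G.Adj v w := by simp [nb]

lemma hit_floor (G : SimpleGraph V) (d : ℕ) (hd : ∀ v, (nb G v).card ≤ d) (θ : ℝ) (hθ : 0 ≤ θ)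
    (S : Finset V) : hit G θ S = hit G ((min ⌊θ⌋₊ d : ℕ) : ℝ) S := by
  unfold hit
  apply Finset.filter_congr
  intro v _
  have hn : (nb G v ∩ S).card ≤ d := (card_le_card inter_subset_left).trans (hd v)
  rw [← Nat.floor_lt hθ, Nat.cast_lt]
  constructor
  · intro h; exact lt_of_le_of_lt (min_le_left _ _) h
  · intro h
    rcases min_lt_iff.mp h with h1 | h1
    · exact h1
    · omega

lemma pr_false {Ω : Type u} [Fintype Ω] : pr (fun _ : Ω => False) = 0 := by
  unfold pr; simp

lemma pr_mono {Ω : Type u} [Fintype Ω] {E E' : Ω → Prop} (h : ∀ ω, E ω → E' ω) :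
    pr E ≤ pr E' := by
  unfold pr
  apply div_le_div_of_nonneg_right _ (by positivity)
  exact_mod_cast Finset.card_le_card (fun ω hω => by
    simp only [mem_filter, mem_univ, true_and] at hω ⊢; exact h ω hω)

lemma pr_nonneg {Ω : Type u} [Fintype Ω] (E : Ω → Prop) : 0 ≤ pr E := by unfold pr; positivity

end

theorem stmt_LPKX (hEVF : Stmt_EVF.{u}) (hCNT : Stmt_CNT.{u}) (hBALL : Stmt_BALL.{u}) :
    Stmt_LPKX.{u} := by
  intro M σ hM hσ hσ1
  obtain ⟨d0, hd0, hE⟩ := hEVF M σ hM hσ hσ1
  refine ⟨max d0 3, le_max_right _ _, ?_⟩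
  intro V _ G d L c1 blk pos x hd hL hc1 hdeg hb
  have hdd0 : d0 ≤ d := (le_max_left _ _).trans hd
  have hd3 : 3 ≤ d := (le_max_right _ _).trans hd
  have hM' : (1 : ℝ) ≤ M := by exact_mod_cast hM
  have hlog : 0 < Real.log d := Real.log_pos (by
    have : (3 : ℝ) ≤ d := by exact_mod_cast hd3
    linarith)
  obtain ⟨s, hs⟩ : ∃ s : ℝ, s = σ ^ 2 / (200 * (M : ℝ) ^ 5) := ⟨_, rfl⟩
  have hspos : 0 < s := by rw [hs]; positivity
  have hs1 : s ≤ 1 := by
    rw [hs, div_le_one (by positivity)]
    have : (1 : ℝ) ≤ (M : ℝ) ^ 5 := one_le_pow₀ hM'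
    nlinarith
  obtain ⟨-, -, hb3, hb4⟩ := hBALL G d hdeg
  rw [← hs]
  let κ := (↥(Codes G x L)) × (Finset (Fin M) × Finset (Fin M) × Fin (d + 1) × Fin (d + 1))
  let A : κ → Finset V := fun k => hit G ((k.2.2.2.2 : ℕ) : ℝ) k.1.1.2
  let B : κ → Finset V := fun k => hit G ((k.2.2.2.1 : ℕ) : ℝ) k.1.1.1
  let st : κ → Prop := fun k => k.2.1.card = k.2.2.1.card ∧ k.2.1.Nonempty ∧
    c1 * (L * d) ≤ Real.log d * (((A k).card : ℝ) + (B k).card)
  let E : κ → (V → Fin (M.factorial)) → Prop := fun k f =>
    st k ∧ ¬ GoodF G d M σ blk pos k.2.1 k.2.2.1 (A k) (B k) f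
  let Q : κ → Finset V := fun k =>
    insert (blk x) ((A k ∪ B k ∪ (A k).biUnion (nb G)).image blk)
  have hcodes : ∀ k : κ, ∃ w : ℕ → V, LWalk G L w ∧ w 0 = x ∧
      ∀ v ∈ k.1.1.1 ∪ k.1.1.2, ∃ i ≤ L, w i = v := by
    intro k
    have := k.1.2
    simpa [Codes] using this
  have hhit : ∀ (k : κ) (θ : ℝ) (S : Finset V), 0 ≤ θ → S ⊆ k.1.1.1 ∪ k.1.1.2 →
      ∀ v ∈ hit G θ S, v ∈ lball G (L + 1) x := by
    intro k θ S hθ hS v hv
    obtain ⟨w, hw, hw0, hcov⟩ := hcodes k
    simp only [hit, mem_filter, mem_univ, true_and] at hv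
    have hne : (nb G v ∩ S).Nonempty := by
      rw [Finset.nonempty_iff_ne_empty]
      intro h0
      rw [h0] at hv
      simp at hv
      linarith
    obtain ⟨y, hy⟩ := hne
    rw [mem_inter, mem_nb] at hy
    obtain ⟨i, hi, hwi⟩ := hcov y (hS hy.2)
    have h1 := hb4 L w hw i hi
    rw [hw0, hwi] at h1
    exact hb3 L x y v h1 (Or.inr hy.1.symm)
  refine ⟨κ, inferInstance, Q, E, ?_, ?_, ?_, ?_, ?_⟩
  · -- dependence
    intro k f f' hff
    by_cases hst : st k
    · have h1 := (hE G d blk pos k.2.1 k.2.2.1 (A k) (B k) hdd0 hdeg hb hst.1 hst.2.1).2 f f'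
        (fun y hy => hff y (mem_insert_of_mem hy))
      show (st k ∧ ¬ GoodF G d M σ blk pos k.2.1 k.2.2.1 (A k) (B k) f) =
        (st k ∧ ¬ GoodF G d M σ blk pos k.2.1 k.2.2.1 (A k) (B k) f')
      rw [h1]
    · show (st k ∧ ¬ GoodF G d M σ blk pos k.2.1 k.2.2.1 (A k) (B k) f) =
        (st k ∧ ¬ GoodF G d M σ blk pos k.2.1 k.2.2.1 (A k) (B k) f')
      simp [hst]
  · intro k
    exact ⟨blk x, mem_insert_self _ _⟩
  · -- scope
    intro k y hy
    have hup : ∀ v, v ∈ lball G (L + 1) x → v ∈ lball G (L + 3) x := by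
      intro v hv
      exact hb3 (L + 2) x v v (hb3 (L + 1) x v v hv (Or.inl rfl)) (Or.inl rfl)
    have hA : ∀ v ∈ A k, v ∈ lball G (L + 1) x :=
      hhit k _ _ (by positivity) subset_union_right
    have hB : ∀ v ∈ B k, v ∈ lball G (L + 1) x :=
      hhit k _ _ (by positivity) subset_union_left
    rcases mem_insert.mp hy with h | h
    · rw [h]
      apply mem_image_of_mem
      obtain ⟨w, hw, hw0, -⟩ := hcodes k
      have h1 := hb4 L w hw 0 (by omega)
      rw [hw0] at h1
      exact hup x (hb3 L x x x h1 (Or.inl rfl))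
    · obtain ⟨v, hv, rfl⟩ := mem_image.mp h
      apply mem_image_of_mem
      simp only [mem_union, mem_biUnion] at hv
      rcases hv with (hv | hv) | ⟨a, ha, hv⟩
      · exact hup v (hA v hv)
      · exact hup v (hB v hv)
      · exact hb3 (L + 2) x v v (hb3 (L + 1) x a v (hA a ha) (Or.inr (mem_nb.mp hv))) (Or.inl rfl)
  · -- weight
    have hterm : ∀ k : κ, pr (E k) * Real.exp (2 * (s / (16 * (d + 1))) * ((Q k).card : ℝ)) ≤
        20 * Real.exp (-(3 / 4 * s * (c1 * L * d / Real.log d))) := by
      intro k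
      by_cases hst : st k
      · have h1 := (hE G d blk pos k.2.1 k.2.2.1 (A k) (B k) hdd0 hdeg hb hst.1 hst.2.1).1
        rw [← hs] at h1
        have h2 : pr (E k) ≤ 6 * Real.exp (-(s * (((A k).card : ℝ) + (B k).card))) :=
          (pr_mono (fun f hf => hf.2)).trans h1
        obtain ⟨N, hN⟩ : ∃ N : ℝ, N = ((A k).card : ℝ) + (B k).card := ⟨_, rfl⟩
        rw [← hN] at h2
        have hN0 : 0 ≤ N := by rw [hN]; positivity
        have hQ : ((Q k).card : ℝ) ≤ 1 + (d + 1) * N := by
          have h3 : (Q k).card ≤ (A k).card + (B k).card + (A k).card * d + 1 := by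
            refine (card_insert_le _ _).trans ?_
            have h4 : ((A k ∪ B k ∪ (A k).biUnion (nb G)).image blk).card ≤
                (A k).card + (B k).card + (A k).card * d := by
              refine card_image_le.trans ((card_union_le _ _).trans ?_)
              have h5 : ((A k).biUnion (nb G)).card ≤ (A k).card * d :=
                card_biUnion_le_card_mul _ _ _ (fun a _ => hdeg a)
              have h6 := card_union_le (A k) (B k)
              omega
            omega
          have h3' : ((Q k).card : ℝ) ≤ (A k).card + (B k).card + (A k).card * d + 1 := by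
            exact_mod_cast h3
          have h7 : (0 : ℝ) ≤ (B k).card * d := by positivity
          rw [hN]
          nlinarith
        have hT : 2 * (s / (16 * (d + 1))) * ((Q k).card : ℝ) ≤ s / 8 + s * N / 8 := by
          have h4 : 2 * (s / (16 * (d + 1))) * ((Q k).card : ℝ) ≤
              2 * (s / (16 * (d + 1))) * (1 + (d + 1) * N) :=
            mul_le_mul_of_nonneg_left hQ (by positivity)
          have h5 : 2 * (s / (16 * (d + 1))) * (1 + ((d : ℝ) + 1) * N) =
              s / 8 * (1 / (d + 1)) + s * N / 8 := by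
            field_simp
            ring
          have h6 : 1 / ((d : ℝ) + 1) ≤ 1 := by
            rw [div_le_one (by positivity)]
            have : (0 : ℝ) ≤ d := by positivity
            linarith
          have h7 : s / 8 * (1 / ((d : ℝ) + 1)) ≤ s / 8 * 1 :=
            mul_le_mul_of_nonneg_left h6 (by positivity)
          linarith
        have hst3 := hst.2.2
        rw [← hN] at hst3
        have hNl : c1 * L * d / Real.log d ≤ N := by
          rw [div_le_iff₀ hlog]
          linarith
        have he : Real.exp (s / 8) ≤ 2 := by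
          have h8 : Real.exp (s / 8) ≤ Real.exp (Real.log 2) := by
            apply Real.exp_le_exp.mpr
            have := Real.log_two_gt_d9
            linarith
          rwa [Real.exp_log (by norm_num)] at h8
        calc pr (E k) * Real.exp (2 * (s / (16 * (d + 1))) * ((Q k).card : ℝ))
            ≤ (6 * Real.exp (-(s * N))) * Real.exp (s / 8 + s * N / 8) :=
              mul_le_mul h2 (Real.exp_le_exp.mpr hT) (Real.exp_pos _).le (by positivity)
          _ = 6 * Real.exp (s / 8) * Real.exp (-(7 / 8 * s * N)) := by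
              have : Real.exp (-(s * N)) * Real.exp (s / 8 + s * N / 8) =
                  Real.exp (s / 8) * Real.exp (-(7 / 8 * s * N)) := by
                rw [← Real.exp_add, ← Real.exp_add]
                congr 1
                ring
              rw [mul_assoc, this]; ring
          _ ≤ 6 * 2 * Real.exp (-(7 / 8 * s * N)) := by
              apply mul_le_mul_of_nonneg_right _ (Real.exp_pos _).le
              linarith
          _ ≤ 20 * Real.exp (-(7 / 8 * s * N)) := by
              apply mul_le_mul_of_nonneg_right _ (Real.exp_pos _).le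
              norm_num
          _ ≤ 20 * Real.exp (-(3 / 4 * s * (c1 * L * d / Real.log d))) := by
              apply mul_le_mul_of_nonneg_left _ (by norm_num)
              apply Real.exp_le_exp.mpr
              apply neg_le_neg
              have h9 : 3 / 4 * s * (c1 * L * d / Real.log d) ≤ 3 / 4 * s * N :=
                mul_le_mul_of_nonneg_left hNl (by positivity)
              have h10 : 0 ≤ s * N := by positivity
              nlinarith
      · have h0 : pr (E k) ≤ 0 := by
          rw [← pr_false (Ω := V → Fin (M.factorial))]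
          exact pr_mono (fun f hf => hst hf.1)
        have h1 := mul_le_mul_of_nonneg_right h0
          (Real.exp_pos (2 * (s / (16 * (d + 1))) * ((Q k).card : ℝ))).le
        refine h1.trans ?_
        rw [zero_mul]
        positivity
    refine (Finset.sum_le_sum (fun k _ => hterm k)).trans ?_
    rw [Finset.sum_const, nsmul_eq_mul]
    have hcard : ((univ : Finset κ).card : ℝ) ≤
        (4 * (d + 1)) ^ (L + 1) * (4 ^ M * (d + 2) ^ 2) := by
      have h1 : (univ : Finset κ).card = (Codes G x L).card *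
          (2 ^ M * (2 ^ M * ((d + 1) * (d + 1)))) := by
        rw [Finset.card_univ]
        simp only [κ, Fintype.card_prod, Fintype.card_coe, Fintype.card_finset, Fintype.card_fin]
      have h2 := hCNT G d L x hdeg
      rw [h1]
      push_cast
      have h3 : ((Codes G x L).card : ℝ) ≤ (4 * ((d : ℝ) + 1)) ^ (L + 1) := by exact_mod_cast h2
      have h4 : (2 : ℝ) ^ M * (2 ^ M * (((d : ℝ) + 1) * (d + 1))) ≤ 4 ^ M * (d + 2) ^ 2 := by
        have h5 : (4 : ℝ) ^ M = 2 ^ M * 2 ^ M := by
          rw [← mul_pow]; norm_num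
        rw [h5]
        have h6 : ((d : ℝ) + 1) * (d + 1) ≤ (d + 2) ^ 2 := by nlinarith [(Nat.cast_nonneg d : (0:ℝ) ≤ d)]
        have h7 := mul_le_mul_of_nonneg_left h6 (show (0 : ℝ) ≤ 2 ^ M * 2 ^ M by positivity)
        calc (2 : ℝ) ^ M * (2 ^ M * (((d : ℝ) + 1) * (d + 1))) =
            2 ^ M * 2 ^ M * (((d : ℝ) + 1) * (d + 1)) := by ring
          _ ≤ _ := h7
      exact mul_le_mul h3 h4 (by positivity) (by positivity)
    have h2 := mul_le_mul_of_nonneg_right hcard
      (show (0 : ℝ) ≤ 20 * Real.exp (-(3 / 4 * s * (c1 * L * d / Real.log d))) by positivity)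
    refine h2.trans (le_of_eq ?_)
    ring
  · -- conclusion
    intro f hf P Q' w R S θ1 θ2 hPQ hP hw hw0 hθ1 hθ2 hcov hineq
    have hmem : (R, S) ∈ Codes G x L := by
      simp only [Codes, mem_filter, mem_univ, true_and]
      exact ⟨w, hw, hw0, hcov⟩
    let k : κ := (⟨(R, S), hmem⟩, (P, Q', ⟨min ⌊θ1⌋₊ d, by omega⟩, ⟨min ⌊θ2⌋₊ d, by omega⟩))
    have hA : A k = hit G θ2 S := (hit_floor G d hdeg θ2 hθ2 S).symm
    have hB : B k = hit G θ1 R := (hit_floor G d hdeg θ1 hθ1 R).symm
    by_contra hcon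
    apply hf k
    refine ⟨⟨hPQ, hP, ?_⟩, ?_⟩
    · rw [hA, hB]; exact hineq
    · rw [hA, hB]; exact hcon

end Pool.Agent.Work.MP_db9399_px.helper50.LPKX
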